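import Pool.Agent.H985R2.BT9

/-!
# The set of boundary points touched by the interface of critical bond percolation (`q = 1`) has
the size predicted by SLE(6): dimension `2/3`

The rectangle is `[0, m + 1/2] × [0, k + 1/2]` in lattice units; the interface starts at its lower
right corner.  Cut the part of the right side at heights between `n r` and `2 n r` into `n` blocks
of length `r`.  With probability at least `δ > 0`, not depending on `m, k, n, r`, the number of
blocks touched by the interface is of order `n ^ (2/3)`; the same holds for the lower side.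
The definitions are in `Pool.Agent.H985R2.BTDefs`.
-/

namespace Pool.Agent.Results.MP_216314_pr.BoundaryDimension

open H985BT

theorem result : ∃ c C δ : ℝ, 0 < c ∧ 0 < C ∧ 0 < δ ∧
    (∀ m k n r : ℕ, 1 ≤ n → 1 ≤ r → 2 * (n * r) ≤ m → 4 * (n * r) ≤ k →
      δ ≤ rcP 1 m k (fun ω => c * (n : ℝ) ^ ((2 : ℝ) / 3) ≤ blocksRight m k ω n r ∧
        (blocksRight m k ω n r : ℝ) ≤ C * (n : ℝ) ^ ((2 : ℝ) / 3))) ∧
    (∀ m k n r : ℕ, 1 ≤ n → 1 ≤ r → 4 * (n * r) ≤ m → 2 * (n * r) ≤ k →
      δ ≤ rcP 1 m k (fun ω => c * (n : ℝ) ^ ((2 : ℝ) / 3) ≤ blocksLower m k ω n r ∧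
        (blocksLower m k ω n r : ℝ) ≤ C * (n : ℝ) ^ ((2 : ℝ) / 3))) := by
  obtain ⟨c, C, δ, hc, hC, hδ, _, _, h3, h4⟩ := touching
  exact ⟨c, C, δ, hc, hC, hδ, h3, h4⟩

end Pool.Agent.Results.MP_216314_pr.BoundaryDimension
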