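import Pool.Agent.H555R2.E12.Main

/-!
Local finiteness in groups in which for any two elements `a`, `b` of order 3 one of `ab`, `a⁻¹b`
has order dividing 3.

Outline of the proof.  Call an involution `e` good if for every `w` of order 3 either `e` and `w`
commute or `ew` has order 3.  Coset enumerations replayed by the kernel
(`Pool.Agent.H555R2.E12.CertKa`, `CertKb`, `CertKc`, on the machine of `Pool.Agent.H15R2.TC3`;
they use no bound on the orders of elements) show that every involution `e` with `(ex)^3 = 1` for
some `x` of order 3 is good.  Let `K` be the subgroup generated by the elements of order 3.  An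
element of order 3 commuting with one `K`-conjugate of a good involution commutes with all of
them; if `N` is the normal closure of a good involution `e` in `K`, `n` is in `N` and `w` is an
element of order 3 not commuting with `e`, then `nw` is again such an element, and it follows
that `e` commutes with all its conjugates under `N`.  So `N` is locally finite.  If all elements
of `K` have orders of the form `2^i` or `3 * 2^i`, then modulo its locally finite radical `K` has
no good involutions, and then it has exponent 3, hence is locally finite (Burnside).  Sanov's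
theorem (exponent 4), applied to subgroups of `G/K`, finishes the proof.
-/

universe u

namespace Pool.Agent.Results.MP_544bd1_al.OrderThreePairs

open H555.E12 in
/-- Let `G` be a group such that for all `a`, `b` with `a ^ 3 = 1` and `b ^ 3 = 1` one has
`(a * b) ^ 3 = 1` or `(a⁻¹ * b) ^ 3 = 1`, and let `K` be the subgroup generated by the elements
`t` with `t ^ 3 = 1`.  If every element of `K` has order dividing `3 * 2 ^ i` for some `i`
(depending on the element), then every finitely generated subgroup `F` of `G` with `g ^ 4 ∈ K`
for all `g ∈ F` is finite. -/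
theorem result (G : Type u) [Group G] (K : Subgroup G)
    (hK : K = Subgroup.closure {t : G | t ^ 3 = 1})
    (h : ∀ a b : G, a ^ 3 = 1 → b ^ 3 = 1 → (a * b) ^ 3 = 1 ∨ (a⁻¹ * b) ^ 3 = 1)
    (hP : ∀ g ∈ K, ∃ i : ℕ, g ^ (3 * 2 ^ i) = 1)
    (F : Subgroup G) (hF : F.FG) (h4 : ∀ g ∈ F, g ^ 4 ∈ K) : Finite F := by
  subst hK
  have hLF : LFs (KT G) := LFs_KT (G := G) h hP
  have hq : LFs (F.map (QuotientGroup.mk' (KT G))) := by
    intro s hs hsF
    refine finite_exp4 ?_ ?_
    · exact (Group.fg_iff_subgroup_fg _).2 ((Subgroup.fg_iff _).2 ⟨s, rfl, hs⟩)
    · intro q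
      have h1 : (q : G ⧸ KT G) ∈ F.map (QuotientGroup.mk' (KT G)) :=
        (Subgroup.closure_le _).2 hsF q.2
      obtain ⟨g, hg, hgq⟩ := h1
      ext
      rw [Subgroup.coe_pow, Subgroup.coe_one, ← hgq, ← map_pow]
      exact (QuotientGroup.eq_one_iff _).2 (h4 g hg)
  have hLF2 := LFs.ext (KT G) F hLF hq
  obtain ⟨S, hS⟩ := hF
  have h1 := hLF2 (S : Set G) (Finset.finite_toSet S) (by
    rw [← hS]; exact Subgroup.subset_closure)
  rwa [hS] at h1

end Pool.Agent.Results.MP_544bd1_al.OrderThreePairs
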