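import Pool.Agent.H985R3.TA.Crit
import Pool.Agent.H985R3.TA.STA

/-!
Critical bond percolation on the square lattice: the polychromatic two-arm probability of every
annulus, up to constants (exponent `1/4`).
-/

namespace Pool.Agent.Results.MP_fe58d8_pr.TwoArm

open MeasureTheory

/-- The square lattice: two points of `ℤ²` are adjacent when they differ by one in exactly one
coordinate. -/
def Z2 : SimpleGraph (ℤ × ℤ) where
  Adj u v := |u.1 - v.1| + |u.2 - v.2| = 1
  symm := ⟨fun u v h => by rw [abs_sub_comm v.1, abs_sub_comm v.2]; exact h⟩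
  loopless := ⟨fun u h => by simp at h⟩

/-- Critical bond percolation: every edge of the square lattice is open (`true`) with
probability `1/2`, independently of the other edges. -/
noncomputable def crit : Measure (Z2.edgeSet → Bool) :=
  Measure.infinitePi (fun _ => ProbabilityTheory.bernoulliMeasure true false
    ⟨1/2, by norm_num, by norm_num⟩)

/-- The graph of the open edges. -/
def openGraph (ω : Z2.edgeSet → Bool) : SimpleGraph (ℤ × ℤ) :=
  SimpleGraph.fromEdgeSet {e | ∃ h : e ∈ Z2.edgeSet, ω ⟨e, h⟩ = true}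

/-- The face `(x, y)` is the unit square with lower left corner `(x, y)`.  Two faces are joined
in the dual graph when they share an edge of the square lattice and this edge is closed:
`(x, y-1)` and `(x, y)` share the edge from `(x, y)` to `(x+1, y)`, while
`(x-1, y)` and `(x, y)` share the edge from `(x, y)` to `(x, y+1)`. -/
def dualGraph (ω : Z2.edgeSet → Bool) : SimpleGraph (ℤ × ℤ) :=
  SimpleGraph.fromRel (fun f g =>
    (g = (f.1, f.2 + 1) ∧ ∃ h : s((g.1, g.2), (g.1 + 1, g.2)) ∈ Z2.edgeSet, ω ⟨_, h⟩ = false) ∨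
    (g = (f.1 + 1, f.2) ∧ ∃ h : s((g.1, g.2), (g.1, g.2 + 1)) ∈ Z2.edgeSet, ω ⟨_, h⟩ = false))

/-- The largest absolute value of the two coordinates. -/
def norm (v : ℤ × ℤ) : ℤ := max |v.1| |v.2|

/-- Two arms: an open cluster joins the box of radius `a` around the origin to distance `n`, and
a closed dual cluster joins it to distance `n` (in the maximum norm). -/
def Arms (a n : ℕ) (ω : Z2.edgeSet → Bool) : Prop :=
  (∃ v w, norm v ≤ a ∧ (n : ℤ) ≤ norm w ∧ (openGraph ω).Reachable v w) ∧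
    ∃ f g, norm f ≤ a ∧ (n : ℤ) ≤ norm g ∧ (dualGraph ω).Reachable f g

theorem adj_toE {ω : Z2.edgeSet → Bool} {x y : ℤ} {b' : Bool}
    (hcl : ω (H974.toE (x, y, b')) = false) :
    (dualGraph ω).Adj (H974.dsrc (x, y, b')) (H974.dtgt (x, y, b')) := by
  rcases b' with _ | _
  · rw [dualGraph, SimpleGraph.fromRel_adj]
    refine ⟨by simp, Or.inl (Or.inr ⟨by simp, ?_⟩)⟩
    exact ⟨(H974.toE (x, y, false)).2, hcl⟩
  · rw [dualGraph, SimpleGraph.fromRel_adj]
    refine ⟨by simp, Or.inl (Or.inl ⟨by simp, ?_⟩)⟩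
    exact ⟨(H974.toE (x, y, true)).2, hcl⟩

theorem dual_adj (ω : Z2.edgeSet → Bool) (f g : ℤ × ℤ) :
    (dualGraph ω).Adj f g ↔ ∃ e ∈ (H974.opn ω)ᶜ, (H974.dsrc e = f ∧ H974.dtgt e = g) ∨
      (H974.dsrc e = g ∧ H974.dtgt e = f) := by
  constructor
  · intro h
    rw [dualGraph, SimpleGraph.fromRel_adj] at h
    obtain ⟨-, (⟨hg, hm, hω⟩ | ⟨hg, hm, hω⟩) | (⟨hg, hm, hω⟩ | ⟨hg, hm, hω⟩)⟩ := h
    · refine ⟨(g.1, g.2, true), ?_, Or.inl ?_⟩
      · have : ω (H974.toE (g.1, g.2, true)) = false := hω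
        simpa [H974.opn] using this
      · subst hg; simp
    · refine ⟨(g.1, g.2, false), ?_, Or.inl ?_⟩
      · have : ω (H974.toE (g.1, g.2, false)) = false := hω
        simpa [H974.opn] using this
      · subst hg; simp
    · refine ⟨(f.1, f.2, true), ?_, Or.inr ?_⟩
      · have : ω (H974.toE (f.1, f.2, true)) = false := hω
        simpa [H974.opn] using this
      · subst hg; simp
    · refine ⟨(f.1, f.2, false), ?_, Or.inr ?_⟩
      · have : ω (H974.toE (f.1, f.2, false)) = false := hω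
        simpa [H974.opn] using this
      · subst hg; simp
  · rintro ⟨⟨x, y, b'⟩, he, h⟩
    have hcl : ω (H974.toE (x, y, b')) = false := by
      have : ¬ ω (H974.toE (x, y, b')) = true := he
      simpa using this
    rcases h with ⟨h1, h2⟩ | ⟨h1, h2⟩
    · rw [← h1, ← h2]; exact adj_toE hcl
    · rw [← h1, ← h2]; exact (adj_toE hcl).symm

theorem dual_reach (ω : Z2.edgeSet → Bool) (f g : ℤ × ℤ) :
    (dualGraph ω).Reachable f g ↔ H974.DReach (H974.opn ω)ᶜ f g := by
  rw [SimpleGraph.reachable_iff_reflTransGen]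
  have : (dualGraph ω).Adj = fun f g => ∃ e ∈ (H974.opn ω)ᶜ,
      (H974.dsrc e = f ∧ H974.dtgt e = g) ∨ (H974.dsrc e = g ∧ H974.dtgt e = f) := by
    funext f g
    exact propext (dual_adj ω f g)
  rw [this]
  rfl

theorem arms_iff (a n : ℕ) (ω : Z2.edgeSet → Bool) :
    Arms a n ω ↔ H985T.BArms a n (H974.opn ω) := by
  unfold Arms H985T.BArms
  constructor
  · rintro ⟨⟨v, w, hv, hw, hr⟩, f, g, hf, hg, hd⟩
    unfold norm at hv hw hf hg
    rw [max_le_iff] at hv hf
    rw [le_max_iff] at hw hg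
    exact ⟨⟨v, w, hv.1, hv.2, hw, (H974.open_reach ω v w).1 hr⟩, f, g, hf.1, hf.2, hg,
      (dual_reach ω f g).1 hd⟩
  · rintro ⟨⟨v, w, hv1, hv2, hw, hr⟩, f, g, hf1, hf2, hg, hd⟩
    exact ⟨⟨v, w, max_le hv1 hv2, le_max_iff.2 hw, (H974.open_reach ω v w).2 hr⟩, f, g,
      max_le hf1 hf2, le_max_iff.2 hg, (dual_reach ω f g).2 hd⟩

theorem result : ∃ c C : ℝ, 0 < c ∧ 0 < C ∧ ∀ a n : ℕ, a < n →
    c * (((a:ℝ) + 1) / n) ^ (1/4 : ℝ) ≤ crit.real {ω | Arms a n ω} ∧
      crit.real {ω | Arms a n ω} ≤ C * (((a:ℝ) + 1) / n) ^ (1/4 : ℝ) := by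
  obtain ⟨c, hc, hlow⟩ := H985T.BArms_lower
  obtain ⟨C, hC, hup⟩ := H985T.BArms_upper H985T.st_A
  refine ⟨c, C, hc, hC, ?_⟩
  intro a n han
  have e : {ω | Arms a n ω} = {ω | H985T.BArms a n (H974.opn ω)} := by
    ext ω
    exact arms_iff a n ω
  rw [e]
  exact ⟨hlow a n han, hup a n han⟩

end Pool.Agent.Results.MP_fe58d8_pr.TwoArm
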