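import Mathlib
import Pool.Agent.H319R2.Rigid

set_option autoImplicit false

/-!
The parity sequence of an unbounded trajectory of the 3x+1 map on the integers has many blocks.
-/

namespace Pool.Agent.Results.MP_ff4775_nt.BlockComplexity

open Finset Filter

/-- The 3x+1 map on the integers. -/
def T (x : ℤ) : ℤ := if x % 2 = 0 then x / 2 else (3 * x + 1) / 2

/-- number of odd terms among the first `k` terms of the trajectory of `n` -/
def odd (k : ℕ) (n : ℤ) : ℕ := ((range k).filter fun j => (T^[j] n) % 2 = 1).card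

/-- number of different blocks of length `l` in the sequence of the parities of the trajectory
of `n` -/
noncomputable def blocks (n : ℤ) (l : ℕ) : ℕ :=
  (Set.range fun k : ℕ => fun i : Fin l => (T^[k + i] n) % 2).ncard

theorem T_eq : T = Pool.Agent.H319R2.T := rfl

theorem odd_eq (k : ℕ) (n : ℤ) : odd k n = Pool.Agent.H319R2.od k n := rfl

theorem range_finite (n : ℤ) (l : ℕ) :
    (Set.range fun k : ℕ => fun i : Fin l => (T^[k + i] n) % 2).Finite := by
  apply Set.Finite.subset (Set.Finite.pi' (fun _ : Fin l => Set.finite_Icc (0 : ℤ) 1))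
  rintro _ ⟨k, rfl⟩ i
  simp only [Set.mem_Icc]
  omega

/-- an unbounded trajectory is injective -/
theorem injective_of_unbounded {n : ℤ} (h : ∀ B : ℤ, ∃ k, B < |T^[k] n|) :
    Function.Injective (fun k => T^[k] n) := by
  have key : ∀ i j : ℕ, i < j → T^[i] n = T^[j] n → False := by
    intro i j hij he
    have hper : ∀ m : ℕ, T^[m + i] n = T^[m + j] n := by
      intro m
      rw [Function.iterate_add_apply, he, ← Function.iterate_add_apply]
    have hall : ∀ k : ℕ, ∃ r < j, T^[r] n = T^[k] n := by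
      intro k
      induction k using Nat.strong_induction_on with
      | _ k ih =>
        by_cases hk : k < j
        · exact ⟨k, hk, rfl⟩
        · obtain ⟨r, hr, hr'⟩ := ih (k - j + i) (by omega)
          refine ⟨r, hr, hr'.trans ?_⟩
          rw [hper (k - j), Nat.sub_add_cancel (by omega)]
    obtain ⟨k, hk⟩ := h (∑ r ∈ range j, |T^[r] n|)
    obtain ⟨r, hr, hr'⟩ := hall k
    rw [← hr'] at hk
    have := single_le_sum (f := fun r => |T^[r] n|) (fun _ _ => abs_nonneg _) (mem_range.2 hr)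
    exact absurd hk (not_lt.2 this)
  intro i j he
  by_contra hne
  rcases lt_or_gt_of_ne hne with h1 | h1
  · exact key i j h1 he
  · exact key j i h1 he.symm

/-- equal parity blocks of length `l` force congruence modulo `2 ^ l` -/
theorem terras : ∀ (l : ℕ) (x y : ℤ), (∀ i < l, (T^[i] x) % 2 = (T^[i] y) % 2) →
    (2 : ℤ) ^ l ∣ x - y := by
  intro l
  induction l with
  | zero => intro x y _; simp
  | succ l ih =>
    intro x y h
    have h0 := h 0 (by omega)
    simp only [Function.iterate_zero, id] at h0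
    have h1 := ih (T x) (T y) (by
      intro i hi
      have := h (i + 1) (by omega)
      simpa only [Function.iterate_succ_apply] using this)
    rcases Pool.Agent.H319R2.par x with hx | hx
    · have hy : y % 2 = 0 := by omega
      have ex := Pool.Agent.H319R2.T_even hx
      have ey := Pool.Agent.H319R2.T_even hy
      rw [← T_eq] at ex ey
      rw [← ex, ← ey, ← mul_sub, pow_succ, mul_comm ((2 : ℤ) ^ l) 2]
      exact mul_dvd_mul_left 2 h1
    · have hy : y % 2 = 1 := by omega
      have ex := Pool.Agent.H319R2.T_odd hx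
      have ey := Pool.Agent.H319R2.T_odd hy
      rw [← T_eq] at ex ey
      have h2 : (2 : ℤ) ^ (l + 1) ∣ 3 * (x - y) := by
        have : 3 * (x - y) = 2 * (T x - T y) := by linarith
        rw [this, pow_succ, mul_comm ((2 : ℤ) ^ l) 2]
        exact mul_dvd_mul_left 2 h1
      have hc : IsCoprime ((2 : ℤ) ^ (l + 1)) 3 := by
        apply IsCoprime.pow_left
        exact ⟨-1, 1, by norm_num⟩
      exact hc.dvd_of_dvd_mul_left h2

/-- For every integer `n` with unbounded trajectory the number of `k` with `|T^k n| < 2 ^ l / 2`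
is at most the number of blocks of length `l` of the parity sequence; and if `odd k n ≤ θ k` for
all large `k` then `l ≤ (θ log 3 / log 2 - 1) blocks n l + C` for all `l`. -/
theorem result (n : ℤ) (hn : ∀ B : ℤ, ∃ k, B < |T^[k] n|) :
    (∀ l : ℕ, {k : ℕ | 2 * |T^[k] n| < 2 ^ l}.Finite ∧
      {k : ℕ | 2 * |T^[k] n| < 2 ^ l}.ncard ≤ blocks n l) ∧
    ∀ θ : ℝ, (∀ᶠ k : ℕ in atTop, (odd k n : ℝ) ≤ θ * k) →
      ∃ C : ℝ, ∀ l : ℕ, (l : ℝ) ≤ (θ * (Real.log 3 / Real.log 2) - 1) * blocks n l + C := by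
  have hinj := injective_of_unbounded hn
  have hblk : ∀ l : ℕ, Set.InjOn (fun k : ℕ => fun i : Fin l => (T^[k + i] n) % 2)
      {k : ℕ | 2 * |T^[k] n| < 2 ^ l} := by
    intro l a ha b hb hab
    have hd : (2 : ℤ) ^ l ∣ T^[a] n - T^[b] n := by
      apply terras
      intro i hi
      have := congrFun hab ⟨i, hi⟩
      simp only at this
      rw [← Function.iterate_add_apply, ← Function.iterate_add_apply, Nat.add_comm i a,
        Nat.add_comm i b]
      exact this
    have ha' : 2 * |T^[a] n| < 2 ^ l := ha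
    have hb' : 2 * |T^[b] n| < 2 ^ l := hb
    have hlt : |T^[a] n - T^[b] n| < 2 ^ l := by
      have := abs_sub (T^[a] n) (T^[b] n)
      omega
    have h0 := Int.eq_zero_of_abs_lt_dvd hd hlt
    exact hinj (sub_eq_zero.1 h0)
  have hfin : ∀ l : ℕ, {k : ℕ | 2 * |T^[k] n| < 2 ^ l}.Finite := fun l =>
    Set.Finite.of_injOn (t := Set.range fun k : ℕ => fun i : Fin l => (T^[k + i] n) % 2)
      (fun k _ => ⟨k, rfl⟩) (hblk l) (range_finite n l)
  have hcard : ∀ l : ℕ, {k : ℕ | 2 * |T^[k] n| < 2 ^ l}.ncard ≤ blocks n l := fun l =>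
    Set.ncard_le_ncard_of_injOn _ (fun k _ => ⟨k, rfl⟩) (hblk l) (range_finite n l)
  refine ⟨fun l => ⟨hfin l, hcard l⟩, ?_⟩
  intro θ hθ
  have hn0 : n ≠ 0 := by
    intro h0
    have h1 : T^[1] n = T^[0] n := by rw [h0]; rfl
    exact absurd (hinj h1) (by norm_num)
  have hne : ∀ k, T^[k] n ≠ 0 := fun k => by
    rw [T_eq]; exact Pool.Agent.H319R2.iter_ne_zero hn0 k
  have hone : ∀ k, (1 : ℝ) ≤ |((T^[k] n : ℤ) : ℝ)| := by
    intro k
    have := Int.one_le_abs (hne k)
    exact_mod_cast this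
  obtain ⟨A, hA0, hA⟩ := Pool.Agent.H319R2.rigid 0.96
    (Pool.Agent.H319R2.beta_lt.trans (by norm_num)) (by norm_num)
  have hA' : ∀ k : ℕ, |Real.log |((T^[k] n : ℤ) : ℝ)| - Real.log |(n : ℝ)| + k * Real.log 2 -
      odd k n * Real.log 3| ≤ A := by
    intro k
    have h := hA n k hn0 (fun i _ j _ h => hinj h) 1 le_rfl (fun j _ => hone j)
    rw [Real.one_rpow, mul_one] at h
    exact h
  have hl2 : 0 < Real.log 2 := Real.log_pos (by norm_num)
  have hl3 : 0 < Real.log 3 := Real.log_pos (by norm_num)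
  obtain ⟨K, hK⟩ := eventually_atTop.1 hθ
  set D : ℝ := A + Real.log |(n : ℝ)| with hD
  set κ : ℝ := θ * Real.log 3 - Real.log 2 with hκ
  have hup : ∀ k, K ≤ k → Real.log |((T^[k] n : ℤ) : ℝ)| ≤ D + κ * k := by
    intro k hk
    have h1 := (abs_le.1 (hA' k)).2
    have h2 := mul_le_mul_of_nonneg_right (hK k hk) hl3.le
    rw [hD, hκ]
    nlinarith
  have hκ0 : 0 < κ := by
    by_contra hneg
    push Not at hneg
    -- then the trajectory is bounded
    obtain ⟨B, hB⟩ : ∃ B : ℤ, ∀ k, |T^[k] n| ≤ B := by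
      refine ⟨⌈Real.exp D⌉ + ∑ r ∈ range K, |T^[r] n|, fun k => ?_⟩
      have hs : 0 ≤ ∑ r ∈ range K, |T^[r] n| := sum_nonneg fun _ _ => abs_nonneg _
      have he : 0 ≤ ⌈Real.exp D⌉ := Int.ceil_nonneg (Real.exp_pos _).le
      by_cases hk : k < K
      · have h7 : |T^[k] n| ≤ ∑ r ∈ range K, |T^[r] n| :=
          single_le_sum (f := fun r => |T^[r] n|) (fun _ _ => abs_nonneg _) (mem_range.2 hk)
        linarith
      · have h1 := hup k (not_lt.1 hk)
        have h2 : κ * k ≤ 0 := mul_nonpos_of_nonpos_of_nonneg hneg (Nat.cast_nonneg k)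
        have h3 : |((T^[k] n : ℤ) : ℝ)| ≤ Real.exp D := by
          rw [← Real.log_le_iff_le_exp (lt_of_lt_of_le one_pos (hone k))]
          linarith
        have h4 : (|T^[k] n| : ℤ) ≤ ⌈Real.exp D⌉ := by
          have h5 := h3.trans (Int.le_ceil (Real.exp D))
          exact_mod_cast h5
        linarith
    obtain ⟨k, hk⟩ := hn B
    exact absurd (hB k) (not_le.2 hk)
  refine ⟨1 + D / Real.log 2 + κ / Real.log 2 * K, fun l => ?_⟩
  have hγ : θ * (Real.log 3 / Real.log 2) - 1 = κ / Real.log 2 := by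
    rw [hκ]; field_simp
  rw [hγ]
  set t : ℝ := (((l : ℝ) - 1) * Real.log 2 - D) / κ with ht
  have hsub : (↑(Finset.Ico K ⌈t⌉₊) : Set ℕ) ⊆ {k : ℕ | 2 * |T^[k] n| < 2 ^ l} := by
    intro k hk
    rw [coe_Ico, Set.mem_Ico] at hk
    have h1 : (k : ℝ) < t := Nat.lt_ceil.1 hk.2
    rw [ht, lt_div_iff₀ hκ0] at h1
    have h2 := hup k hk.1
    have h3 : Real.log (2 * |((T^[k] n : ℤ) : ℝ)|) < Real.log (2 ^ l) := by
      rw [Real.log_mul (by norm_num) (by have := hone k; linarith), Real.log_pow]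
      linarith
    have h4 : 2 * |((T^[k] n : ℤ) : ℝ)| < 2 ^ l :=
      (Real.log_lt_log_iff (by have := hone k; linarith) (by positivity)).1 h3
    have h5 : (2 * |T^[k] n| : ℤ) < 2 ^ l := by exact_mod_cast h4
    exact h5
  have h1 : (Finset.Ico K ⌈t⌉₊).card ≤ blocks n l := by
    refine le_trans ?_ (hcard l)
    rw [← Set.ncard_coe_finset]
    exact Set.ncard_le_ncard hsub (hfin l)
  rw [Nat.card_Ico] at h1
  have h2 : t - K ≤ (blocks n l : ℝ) := by
    have h3 : (⌈t⌉₊ : ℝ) - K ≤ ((⌈t⌉₊ - K : ℕ) : ℝ) := by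
      rw [sub_le_iff_le_add]
      exact_mod_cast (by omega : ⌈t⌉₊ ≤ (⌈t⌉₊ - K) + K)
    have h4 := Nat.le_ceil t
    have h5 : ((⌈t⌉₊ - K : ℕ) : ℝ) ≤ (blocks n l : ℝ) := by exact_mod_cast h1
    linarith
  have h3 : κ * t = ((l : ℝ) - 1) * Real.log 2 - D := by
    rw [ht]; field_simp
  have h4 : κ * (t - K) ≤ κ * blocks n l := mul_le_mul_of_nonneg_left h2 hκ0.le
  have h5 : (l : ℝ) * Real.log 2 ≤ κ * blocks n l + Real.log 2 + D + κ * K := by
    linarith
  have h6 : (l : ℝ) ≤ (κ * blocks n l + Real.log 2 + D + κ * K) / Real.log 2 := by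
    rw [le_div_iff₀ hl2]; exact h5
  refine h6.trans (le_of_eq ?_)
  field_simp
  ring

end Pool.Agent.Results.MP_ff4775_nt.BlockComplexity
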